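import Pool.Agent.H72.PSV.T1

/-! Board `psv_modules` (MP_3cf473_nt), row ELI: elimination with a bound for the degree. -/

open Finset

namespace Pool.Agent.H27.PSV

open Pool.Agent.H72.BF (RelR)
open Pool.Agent.H72.PSV (T_ELI)

section

variable {K F : Type} [Field K] [Field F] [Algebra K F] {r s : ℕ}

/-- polynomials in `t` of degree at most `n` in each variable -/
def PD (K : Type) {F : Type} [Field K] [Field F] [Algebra K F] {r : ℕ} (t : Fin r → F) (n : ℕ) :
    Submodule K F :=
  Submodule.span K (Set.range fun m : Fin r → Fin (n + 1) => ∏ i, t i ^ (m i : ℕ))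

/-- monomials in `y` of degree less than `d` in each variable -/
def YD (K : Type) {F : Type} [Field K] [Field F] [Algebra K F] {s : ℕ} (y : Fin s → F) (d : ℕ) :
    Submodule K F :=
  Submodule.span K (Set.range fun v : Fin s → Fin d => ∏ i, y i ^ (v i : ℕ))

private lemma mem_PD {t : Fin r → F} {n : ℕ} (m : Fin r → ℕ) (hm : ∀ i, m i ≤ n) :
    ∏ i, t i ^ m i ∈ PD K t n :=
  Submodule.subset_span ⟨fun i => ⟨m i, Nat.lt_succ_of_le (hm i)⟩, rfl⟩

private lemma mem_YD {y : Fin s → F} {d : ℕ} (m : Fin s → ℕ) (hm : ∀ i, m i < d) :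
    ∏ i, y i ^ m i ∈ YD K y d :=
  Submodule.subset_span ⟨fun i => ⟨m i, hm i⟩, rfl⟩

private lemma PD_mul (t : Fin r → F) (a b : ℕ) : PD K t a * PD K t b ≤ PD K t (a + b) := by
  unfold PD
  rw [Submodule.span_mul_span, Submodule.span_le]
  rintro _ ⟨_, ⟨m, rfl⟩, _, ⟨m', rfl⟩, rfl⟩
  have h := mem_PD (K := K) (t := t) (n := a + b) (fun i => (m i : ℕ) + (m' i : ℕ))
    (fun i => by have := (m i).2; have := (m' i).2; omega)
  have h2 : (∏ i, t i ^ ((m i : ℕ) + (m' i : ℕ))) =
      (∏ i, t i ^ (m i : ℕ)) * ∏ i, t i ^ (m' i : ℕ) := by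
    rw [← Finset.prod_mul_distrib]
    exact Finset.prod_congr rfl fun i _ => pow_add _ _ _
  rw [h2] at h
  exact h

private lemma one_mem_PD (t : Fin r → F) (n : ℕ) : (1 : F) ∈ PD K t n := by
  have h := mem_PD (K := K) (t := t) (n := n) (fun _ => 0) (fun _ => Nat.zero_le _)
  simpa using h

/-- the relation of one element -/
private lemma rel {t : Fin r → F} {d : ℕ} {y : F} (h : RelR K t d y) :
    ∃ (c : F) (g : ℕ → F), c ≠ 0 ∧ c ∈ PD K t d ∧ (∀ j, g j ∈ PD K t d) ∧
      c * y ^ d = ∑ j ∈ range d, g j * y ^ j := by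
  obtain ⟨Q, hQd, hQ0, hQ1⟩ := h
  set p : Polynomial F := MvPolynomial.aeval
    (Fin.snoc (fun i => Polynomial.C (t i)) Polynomial.X : Fin (r + 1) → Polynomial F) Q with hp
  have hexp : p = ∑ m ∈ Q.support, Polynomial.C
      (algebraMap K F (Q.coeff m) * ∏ i : Fin r, t i ^ m (Fin.castSucc i)) *
        Polynomial.X ^ m (Fin.last r) := by
    rw [hp, MvPolynomial.aeval_def, MvPolynomial.eval₂_eq']
    refine Finset.sum_congr rfl fun m _ => ?_
    rw [Fin.prod_univ_castSucc]
    simp only [Fin.snoc_castSucc, Fin.snoc_last]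
    rw [← mul_assoc]
    congr 1
    rw [Polynomial.C_mul, map_prod]
    simp only [map_pow]
    rfl
  have hle : ∀ m ∈ Q.support, ∀ i, m i ≤ d := by
    intro m hm i
    have h1 : m.sum (fun _ e => e) ≤ Q.totalDegree := MvPolynomial.le_totalDegree hm
    have h2 : m i ≤ m.sum (fun _ e => e) := by
      rw [Finsupp.sum_fintype _ _ (fun _ => rfl)]
      exact Finset.single_le_sum (f := fun i => m i) (fun _ _ => Nat.zero_le _) (Finset.mem_univ i)
    omega
  have hcoeff : ∀ j, p.coeff j ∈ PD K t d := by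
    intro j
    rw [hexp, Polynomial.finsetSum_coeff]
    refine Submodule.sum_mem _ fun m hm => ?_
    rw [Polynomial.coeff_C_mul, Polynomial.coeff_X_pow]
    split_ifs
    · rw [mul_one, ← Algebra.smul_def]
      exact Submodule.smul_mem _ _ (mem_PD _ fun i => hle m hm _)
    · rw [mul_zero]
      exact Submodule.zero_mem _
  have hdeg : p.natDegree ≤ d := by
    rw [hexp]
    refine Polynomial.natDegree_sum_le_of_forall_le _ _ fun m hm => ?_
    exact (Polynomial.natDegree_C_mul_X_pow_le _ _).trans (hle m hm _)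
  have heval : p.eval y = 0 := by
    rw [hexp, Polynomial.eval_finsetSum]
    rw [MvPolynomial.aeval_def, MvPolynomial.eval₂_eq'] at hQ0
    rw [← hQ0]
    refine Finset.sum_congr rfl fun m _ => ?_
    rw [Fin.prod_univ_castSucc]
    simp only [Fin.snoc_castSucc, Fin.snoc_last, Polynomial.eval_mul, Polynomial.eval_C,
      Polynomial.eval_pow, Polynomial.eval_X]
    ring
  -- multiply by a power of the variable
  set q : Polynomial F := p * Polynomial.X ^ (d - p.natDegree) with hq
  have hqd : q.natDegree ≤ d := by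
    refine Polynomial.natDegree_mul_le.trans ?_
    rw [Polynomial.natDegree_X_pow]
    omega
  have hqc : ∀ j, q.coeff j ∈ PD K t d := by
    intro j
    rw [hq, Polynomial.coeff_mul_X_pow']
    split_ifs
    · exact hcoeff _
    · exact Submodule.zero_mem _
  have hqlead : q.coeff d = p.leadingCoeff := by
    rw [hq, Polynomial.coeff_mul_X_pow', if_pos (by omega)]
    have : d - (d - p.natDegree) = p.natDegree := by omega
    rw [this]
    rfl
  have hqe : q.eval y = 0 := by
    rw [hq, Polynomial.eval_mul, heval, zero_mul]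
  rw [Polynomial.eval_eq_sum_range' (Nat.lt_succ_of_le hqd), Finset.sum_range_succ] at hqe
  refine ⟨q.coeff d, fun j => - q.coeff j, ?_, hqc d, fun j => Submodule.neg_mem _ (hqc j), ?_⟩
  · rw [hqlead]
    exact Polynomial.leadingCoeff_ne_zero.2 hQ1
  · rw [eq_neg_of_add_eq_zero_right hqe, ← Finset.sum_neg_distrib]
    exact Finset.sum_congr rfl fun j _ => by ring

/-- multiplication of the reduced monomials by `c y_i` -/
private lemma step {t : Fin r → F} {y : Fin s → F} {d : ℕ} {c : F} {g : ℕ → F} (i : Fin s)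
    (hc : c ∈ PD K t d) (hg : ∀ j, g j ∈ PD K t d)
    (h : c * y i ^ d = ∑ j ∈ range d, g j * y i ^ j) {w : F} (hw : w ∈ YD K y d) :
    (c * y i) * w ∈ PD K t d * YD K y d := by
  unfold YD at hw
  induction hw using Submodule.span_induction with
  | zero => rw [mul_zero]; exact Submodule.zero_mem _
  | add a b _ _ ha hb => rw [mul_add]; exact Submodule.add_mem _ ha hb
  | smul a b _ hb =>
    rw [Algebra.mul_smul_comm]
    exact Submodule.smul_mem _ _ hb
  | mem x hx =>
    obtain ⟨v, rfl⟩ := hx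
    have hup : ∀ k : ℕ, ∏ j, y j ^ (Function.update (fun j => (v j : ℕ)) i k j) =
        y i ^ k * ∏ j ∈ univ.erase i, y j ^ (v j : ℕ) := by
      intro k
      rw [← Finset.mul_prod_erase univ _ (Finset.mem_univ i), Function.update_self]
      congr 1
      refine Finset.prod_congr rfl fun j hj => ?_
      rw [Function.update_of_ne (Finset.ne_of_mem_erase hj)]
    have hmem : ∀ k : ℕ, k < d → y i ^ k * ∏ j ∈ univ.erase i, y j ^ (v j : ℕ) ∈ YD K y d := by
      intro k hk
      rw [← hup k]
      refine mem_YD _ fun j => ?_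
      by_cases hj : j = i
      · subst hj; rw [Function.update_self]; exact hk
      · rw [Function.update_of_ne hj]; exact (v j).2
    have hv : ∏ j, y j ^ (v j : ℕ) = y i ^ (v i : ℕ) * ∏ j ∈ univ.erase i, y j ^ (v j : ℕ) :=
      (Finset.mul_prod_erase univ (fun j => y j ^ (v j : ℕ)) (Finset.mem_univ i)).symm
    simp only [hv]
    rcases Nat.lt_or_ge ((v i : ℕ) + 1) d with h1 | h1
    · have h2 : c * y i * (y i ^ (v i : ℕ) * ∏ j ∈ univ.erase i, y j ^ (v j : ℕ)) =
          c * (y i ^ ((v i : ℕ) + 1) * ∏ j ∈ univ.erase i, y j ^ (v j : ℕ)) := by ring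
      rw [h2]
      exact Submodule.mul_mem_mul hc (hmem _ h1)
    · have h3 : (v i : ℕ) + 1 = d := le_antisymm (v i).2 h1
      have h2 : c * y i * (y i ^ (v i : ℕ) * ∏ j ∈ univ.erase i, y j ^ (v j : ℕ)) =
          (c * y i ^ ((v i : ℕ) + 1)) * ∏ j ∈ univ.erase i, y j ^ (v j : ℕ) := by ring
      rw [h2, h3, h, Finset.sum_mul]
      refine Submodule.sum_mem _ fun j hj => ?_
      rw [mul_assoc]
      exact Submodule.mul_mem_mul (hg j) (hmem j (Finset.mem_range.1 hj))

private lemma prod_mem {t : Fin r → F} {d : ℕ} {c : Fin s → F} (hc : ∀ i, c i ∈ PD K t d)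
    (S : Finset (Fin s)) : ∏ i ∈ S, c i ∈ PD K t (S.card * d) := by
  classical
  induction S using Finset.induction_on with
  | empty => simpa using one_mem_PD (K := K) t 0
  | insert a S ha ih =>
    rw [Finset.prod_insert ha, Finset.card_insert_of_notMem ha]
    have h := PD_mul t d (S.card * d) (Submodule.mul_mem_mul (hc a) ih)
    have h2 : (S.card + 1) * d = d + S.card * d := by ring
    rw [h2]
    exact h

/-- multiplication by the full product -/
private lemma step2 {t : Fin r → F} {y : Fin s → F} {d : ℕ} {c : Fin s → F} {g : Fin s → ℕ → F}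
    (hc : ∀ i, c i ∈ PD K t d) (hg : ∀ i j, g i j ∈ PD K t d)
    (h : ∀ i, c i * y i ^ d = ∑ j ∈ range d, g i j * y i ^ j) (i : Fin s) {n : ℕ} {w : F}
    (hw : w ∈ PD K t n * YD K y d) :
    (∏ j, c j) * y i * w ∈ PD K t (n + s * d) * YD K y d := by
  classical
  induction hw using Submodule.mul_induction_on' with
  | add a _ b _ ha hb => rw [mul_add]; exact Submodule.add_mem _ ha hb
  | mem_mul_mem a ha b hb =>
    have h1 := step i (hc i) (hg i) (h i) hb
    have h2 : ∏ j ∈ univ.erase i, c j ∈ PD K t ((univ.erase i).card * d) := prod_mem hc _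
    have h3 := PD_mul t _ _ (Submodule.mul_mem_mul h2 ha)
    have h4 : (∏ j, c j) * y i * (a * b) =
        ((∏ j ∈ univ.erase i, c j) * a) * (c i * y i * b) := by
      rw [← Finset.mul_prod_erase univ c (Finset.mem_univ i)]
      ring
    rw [h4]
    have h5 := Submodule.mul_mem_mul h3 h1
    rw [← mul_assoc] at h5
    have h6 : (univ.erase i : Finset (Fin s)).card * d + n + d = n + s * d := by
      rw [Finset.card_erase_of_mem (Finset.mem_univ i), Finset.card_univ, Fintype.card_fin]
      have hs : 1 ≤ s := by have := i.2; omega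
      obtain ⟨s', rfl⟩ := Nat.exists_eq_add_of_le hs
      rw [Nat.add_sub_cancel_left]
      ring
    have h7 : PD K t ((univ.erase i : Finset (Fin s)).card * d + n) * PD K t d * YD K y d ≤
        PD K t (n + s * d) * YD K y d := by
      rw [← h6]
      exact mul_le_mul' (PD_mul t _ _) le_rfl
    exact h7 h5

private lemma step3 {t : Fin r → F} {y : Fin s → F} {d : ℕ} {c : Fin s → F}
    (hc : ∀ i, c i ∈ PD K t d) {n : ℕ} {w : F} (hw : w ∈ PD K t n * YD K y d) :
    (∏ j, c j) * w ∈ PD K t (n + s * d) * YD K y d := by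
  have h2 : ∏ j, c j ∈ PD K t (s * d) := by
    simpa using prod_mem hc univ
  have h3 := Submodule.mul_mem_mul h2 hw
  rw [← mul_assoc] at h3
  have h7 : PD K t (s * d) * PD K t n * YD K y d ≤ PD K t (n + s * d) * YD K y d := by
    rw [add_comm n]
    exact mul_le_mul' (PD_mul t _ _) le_rfl
  exact h7 h3

/-- the dimension of the space of all reduced polynomials -/
private lemma dim (t : Fin r → F) (y : Fin s → F) (n d : ℕ) :
    ∃ U : Submodule K F, PD K t n * YD K y d ≤ U ∧ FiniteDimensional K U ∧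
      Module.finrank K U ≤ (n + 1) ^ r * d ^ s := by
  refine ⟨Submodule.span K (Set.range fun p : (Fin r → Fin (n + 1)) × (Fin s → Fin d) =>
    (∏ i, t i ^ (p.1 i : ℕ)) * ∏ i, y i ^ (p.2 i : ℕ)), ?_, ?_, ?_⟩
  · unfold PD YD
    rw [Submodule.span_mul_span]
    refine Submodule.span_mono ?_
    rintro _ ⟨_, ⟨m, rfl⟩, _, ⟨v, rfl⟩, rfl⟩
    exact ⟨(m, v), rfl⟩
  · exact FiniteDimensional.span_of_finite K (Set.finite_range _)
  · refine (finrank_range_le_card _).trans ?_
    rw [Fintype.card_prod, Fintype.card_fun, Fintype.card_fun]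
    simp

end

/-- (ELI) elimination. -/
theorem eli : T_ELI := by
  classical
  intro r d
  set a : ℕ := (r + 2) * d * (r + 1) with ha
  set T : ℕ := (a + 1) ^ r * d ^ (r + 2) + 1 with hT
  refine ⟨(r + 1) * T, ?_⟩
  intro K F _ _ _ t y h
  choose c g hc0 hcP hgP hrel using fun i => rel (h i)
  have hd : 1 ≤ d := by
    rcases Nat.eq_zero_or_pos d with h0 | h0
    · subst h0
      have h1 := hrel 0
      rw [pow_zero, mul_one, Finset.range_zero, Finset.sum_empty] at h1
      exact absurd h1 (hc0 0)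
    · exact h0
  set cc : F := ∏ i, c i with hcc
  have hcc0 : cc ≠ 0 := Finset.prod_ne_zero_iff.2 fun i _ => hc0 i
  set Z : Fin (r + 1) → F := fun i => y i.succ - y 0 with hZ
  set A : ℕ → Set F := fun k => {z | cc ^ k * z ∈ PD K t ((r + 2) * d * k) * YD K y d} with hA
  have hA0 : (1 : F) ∈ A 0 := by
    have h1 := Submodule.mul_mem_mul (one_mem_PD (K := K) t ((r + 2) * d * 0))
      (mem_YD (K := K) (y := y) (d := d) (fun _ => 0) (fun _ => hd))
    simpa [hA] using h1
  have hA1 : ∀ k z, z ∈ A k → z ∈ A (k + 1) := by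
    intro k z hz
    have h1 := step3 hcP hz
    have h2 : cc ^ (k + 1) * z = cc * (cc ^ k * z) := by ring
    have h3 : (r + 2) * d * (k + 1) = (r + 2) * d * k + (r + 2) * d := by ring
    show cc ^ (k + 1) * z ∈ PD K t ((r + 2) * d * (k + 1)) * YD K y d
    rw [h2, h3]
    exact h1
  have hA2 : ∀ k z i, z ∈ A k → Z i * z ∈ A (k + 1) := by
    intro k z i hz
    have h1 := step2 hcP hgP hrel i.succ hz
    have h1' := step2 hcP hgP hrel 0 hz
    have h2 : cc ^ (k + 1) * (Z i * z) = cc * y i.succ * (cc ^ k * z) -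
        cc * y 0 * (cc ^ k * z) := by
      rw [hZ]
      ring
    have h3 : (r + 2) * d * (k + 1) = (r + 2) * d * k + (r + 2) * d := by ring
    show cc ^ (k + 1) * (Z i * z) ∈ PD K t ((r + 2) * d * (k + 1)) * YD K y d
    rw [h2, h3]
    exact Submodule.sub_mem _ h1 h1'
  have hA3 : ∀ m k z i, z ∈ A k → Z i ^ m * z ∈ A (k + m) := by
    intro m
    induction m with
    | zero => intro k z i hz; simpa using hz
    | succ m ih =>
      intro k z i hz
      have h1 := hA2 _ _ i (ih k z i hz)
      have h2 : Z i ^ (m + 1) * z = Z i * (Z i ^ m * z) := by ring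
      rw [h2]
      exact h1
  have hA4 : ∀ (e : Fin (r + 1) → ℕ) (S : Finset (Fin (r + 1))),
      ∏ i ∈ S, Z i ^ e i ∈ A (∑ i ∈ S, e i) := by
    intro e S
    induction S using Finset.induction_on with
    | empty => simpa using hA0
    | insert i S hi ih =>
      rw [Finset.prod_insert hi, Finset.sum_insert hi, add_comm (e i)]
      exact hA3 _ _ _ i ih
  have hA5 : ∀ k l z, k ≤ l → z ∈ A k → z ∈ A l := by
    intro k l z hkl hz
    induction hkl with
    | refl => exact hz
    | step _ ih => exact hA1 _ _ ih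
  obtain ⟨U, hU, hUf, hUd⟩ := dim (K := K) t y (a * T) d
  have hmem : ∀ e : Fin (r + 1) → Fin T, cc ^ ((r + 1) * T) * ∏ i, Z i ^ (e i : ℕ) ∈ U := by
    intro e
    have h1 := hA4 (fun i => (e i : ℕ)) univ
    have h2 : ∑ i : Fin (r + 1), (e i : ℕ) ≤ (r + 1) * T := by
      refine (Finset.sum_le_card_nsmul univ _ T fun i _ => (e i).2.le).trans ?_
      simp
    have h3 := hA5 _ _ _ h2 h1
    have h4 : (r + 2) * d * ((r + 1) * T) = a * T := by rw [ha]; ring
    have h5 : cc ^ ((r + 1) * T) * ∏ i, Z i ^ (e i : ℕ) ∈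
        PD K t ((r + 2) * d * ((r + 1) * T)) * YD K y d := h3
    rw [h4] at h5
    exact hU h5
  have hT1 : 1 ≤ T := by rw [hT]; omega
  have hcount : (a * T + 1) ^ r * d ^ (r + 2) < T ^ (r + 1) := by
    have h1 : a * T + 1 ≤ (a + 1) * T := by
      rw [add_mul, one_mul]
      omega
    have h2 : (a * T + 1) ^ r ≤ (a + 1) ^ r * T ^ r := by
      rw [← mul_pow]
      exact Nat.pow_le_pow_left h1 r
    calc (a * T + 1) ^ r * d ^ (r + 2) ≤ (a + 1) ^ r * T ^ r * d ^ (r + 2) :=
          Nat.mul_le_mul_right _ h2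
      _ = T ^ r * ((a + 1) ^ r * d ^ (r + 2)) := by ring
      _ < T ^ r * T := by
          refine Nat.mul_lt_mul_of_pos_left ?_ (Nat.pow_pos hT1)
          rw [hT]
          exact Nat.lt_succ_self _
      _ = T ^ (r + 1) := (pow_succ _ _).symm
  have hdep : ¬ LinearIndependent K
      (fun e : Fin (r + 1) → Fin T => cc ^ ((r + 1) * T) * ∏ i, Z i ^ (e i : ℕ)) := by
    intro hli
    have h1 := finrank_span_eq_card hli
    rw [Fintype.card_fun, Fintype.card_fin, Fintype.card_fin] at h1
    have h2 : Submodule.span K (Set.range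
        fun e : Fin (r + 1) → Fin T => cc ^ ((r + 1) * T) * ∏ i, Z i ^ (e i : ℕ)) ≤ U := by
      rw [Submodule.span_le]
      rintro _ ⟨e, rfl⟩
      exact hmem e
    have h3 := Submodule.finrank_mono h2
    rw [h1] at h3
    omega
  obtain ⟨q, hq0, e₀, he₀⟩ := Fintype.not_linearIndependent_iff.1 hdep
  -- the polynomial
  set fs : (Fin (r + 1) → Fin T) → (Fin (r + 1) →₀ ℕ) :=
    fun e => Finsupp.equivFunOnFinite.symm (fun i => (e i : ℕ)) with hfs
  have hfsi : Function.Injective fs := by
    intro e e' hee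
    have h1 := Finsupp.equivFunOnFinite.symm.injective hee
    funext i
    exact Fin.ext (congrFun h1 i)
  refine ⟨∑ e, MvPolynomial.monomial (fs e) (q e), ?_, ?_, ?_⟩
  · intro h0
    apply he₀
    have h1 := congrArg (MvPolynomial.coeff (fs e₀)) h0
    rw [MvPolynomial.coeff_sum, MvPolynomial.coeff_zero,
      Finset.sum_eq_single e₀ (fun e _ he => by
        rw [MvPolynomial.coeff_monomial, if_neg (fun h => he (hfsi h))])
        (fun h => absurd (Finset.mem_univ _) h), MvPolynomial.coeff_monomial, if_pos rfl] at h1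
    exact h1
  · refine MvPolynomial.totalDegree_finsetSum_le fun e _ => ?_
    refine (MvPolynomial.totalDegree_monomial_le _ _).trans ?_
    rw [Finsupp.sum_fintype _ _ (fun _ => rfl)]
    refine (Finset.sum_le_card_nsmul univ _ T fun i _ => (e i).2.le).trans ?_
    simp
  · rw [map_sum]
    have h1 : cc ^ ((r + 1) * T) * ∑ e, MvPolynomial.aeval Z (MvPolynomial.monomial (fs e) (q e)) =
        0 := by
      rw [← hq0, Finset.mul_sum]
      refine Finset.sum_congr rfl fun e _ => ?_
      rw [MvPolynomial.aeval_monomial, Finsupp.prod_fintype _ _ (fun _ => pow_zero _),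
        Algebra.smul_def]
      simp only [hfs, Finsupp.equivFunOnFinite_symm_apply_apply]
      ring
    exact (mul_eq_zero.1 h1).resolve_left (pow_ne_zero _ hcc0)

end Pool.Agent.H27.PSV
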